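import Pool.Agent.K3h5.FF.Stm

/-!
# The fixed point forest: the local limit from the laws of the words (brick MAIN)
-/

set_option autoImplicit false

open MeasureTheory Filter Topology ProbabilityTheory Set

namespace Pool.Agent.K3h30.FF

open Pool.Agent.K3h5.FF

/-! ### the finite side -/

/-- probabilities are nonnegative -/
theorem pr_nonneg {n : ℕ} (P : Equiv.Perm (Fin n) → ℝ) (hP : ∀ π, 0 ≤ P π)
    (A : Set (Equiv.Perm (Fin n))) : 0 ≤ pr P A := by
  unfold pr
  refine Finset.sum_nonneg fun π _ => ?_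
  split_ifs
  exacts [hP π, le_rfl]

/-- a word depends only on the marks of radius `S` -/
theorem isWord_congr {M : Type} [LinearOrder M] {S : ℕ} {L L' : Label → M → Prop} {m : ℕ}
    {w : Fin m → Label} (h : ∀ l ∈ Win S, ∀ x, L l x ↔ L' l x) : IsWord S L w → IsWord S L' w := by
  rintro ⟨hw, z, ⟨hz, hz'⟩, hall⟩
  exact ⟨hw, z, ⟨hz, fun i => (h _ (hw i) _).1 (hz' i)⟩,
    fun l hl x hx => hall l hl x ((h l hl x).2 hx)⟩

/-- marked letters are letters -/
theorem labP_range {n : ℕ} (π : Equiv.Perm (Fin n)) (l : Label) (a : ℤ) (h : LabP π l a) :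
    ∃ p : Fin n, (((π p : Fin n) : ℕ) : ℤ) = a := by
  cases l with
  | inl k =>
    obtain ⟨p, h1, -⟩ := h
    exact ⟨p, h1⟩
  | inr j =>
    obtain ⟨p, -, h1⟩ := h
    exact ⟨p, h1⟩

/-- there are finitely many marked letters -/
theorem labT_finite {n : ℕ} (S : ℕ) (π : Equiv.Perm (Fin n)) :
    {x | ∃ l ∈ Win S, LabT S π l x}.Finite := by
  refine (Set.finite_range fun p : Fin n => (((π p : Fin n) : ℕ) : ℤ)).subset ?_
  rintro x ⟨l, -, hl, -⟩
  obtain ⟨p, hp⟩ := labP_range π l x hl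
  exact ⟨p, hp⟩

/-- membership in `Win S` -/
theorem inl_mem {S : ℕ} {k : ℤ} (h : (Sum.inl k : Label) ∈ Win S) : -(S : ℤ) ≤ k ∧ k ≤ S := by
  unfold Win at h
  rw [Finset.inl_mem_disjSum] at h
  exact Finset.mem_Icc.1 h

/-- membership in `Win S` -/
theorem inr_mem {S j : ℕ} (h : (Sum.inr j : Label) ∈ Win S) : j < S := by
  unfold Win at h
  rw [Finset.inr_mem_disjSum] at h
  exact Finset.mem_range.1 h

/-- the positions of the same letter agree -/
theorem pos_eq {n : ℕ} (π : Equiv.Perm (Fin n)) {p q : Fin n} {a : ℤ}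
    (hp : (((π p : Fin n) : ℕ) : ℤ) = a) (hq : (((π q : Fin n) : ℕ) : ℤ) = a) : p = q := by
  apply π.injective
  apply Fin.ext
  have h : (((π p : Fin n) : ℕ) : ℤ) = (((π q : Fin n) : ℕ) : ℤ) := hp.trans hq.symm
  exact_mod_cast h

/-- the marks of large letters are unique -/
theorem labT_unique {n : ℕ} (S : ℕ) (π : Equiv.Perm (Fin n)) :
    ∀ l ∈ Win S, ∀ l' ∈ Win S, ∀ x, LabT S π l x → LabT S π l' x → l = l' := by
  intro l hl l' hl' x h h'
  obtain ⟨h1, h2⟩ := h
  obtain ⟨h1', -⟩ := h'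
  cases l with
  | inl k =>
    obtain ⟨p, hp, hk⟩ := h1
    cases l' with
    | inl k' =>
      obtain ⟨p', hp', hk'⟩ := h1'
      have e := pos_eq π hp hp'
      subst e
      have : k = k' := by omega
      rw [this]
    | inr j =>
      obtain ⟨p', hj, hp'⟩ := h1'
      have e := pos_eq π hp hp'
      subst e
      have b1 := (inl_mem hl).2
      have b2 := inr_mem hl'
      omega
  | inr j =>
    obtain ⟨p, hj, hp⟩ := h1
    cases l' with
    | inl k' =>
      obtain ⟨p', hp', hk'⟩ := h1'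
      have e := pos_eq π hp hp'
      subst e
      have b1 := (inl_mem hl').2
      have b2 := inr_mem hl
      omega
    | inr j' =>
      obtain ⟨p', hj', hp'⟩ := h1'
      have e := pos_eq π hp hp'
      subst e
      have : j = j' := by omega
      rw [this]

/-- the probabilities of the words in `A` -/
theorem tsum_word {n : ℕ} (P : Equiv.Perm (Fin n) → ℝ) {T : Type}
    (F : T → Set (Equiv.Perm (Fin n))) (W : Equiv.Perm (Fin n) → T)
    (hF : ∀ v π, π ∈ F v ↔ W π = v) (A : Set T) :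
    ∑' v, A.indicator (fun v => pr P (F v)) v = pr P {π | W π ∈ A} := by
  classical
  have h : HasSum (fun v => A.indicator (fun v => pr P (F v)) v) (pr P {π | W π ∈ A}) := by
    unfold pr
    have h0 : (fun v => A.indicator (fun v => ∑ π, if π ∈ F v then P π else 0) v) =
        fun v => ∑ π, if v ∈ A ∧ W π = v then P π else 0 := by
      funext v
      by_cases hv : v ∈ A
      · simp [hv, hF]
      · simp [hv]
    rw [h0]
    refine hasSum_sum fun π _ => ?_
    by_cases hA : W π ∈ A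
    · have h1 : (fun v => if v ∈ A ∧ W π = v then P π else 0) =
          fun v => if v = W π then P π else 0 := by
        funext v
        by_cases hv : v = W π
        · subst hv
          simp [hA]
        · rw [if_neg hv, if_neg]
          rintro ⟨-, h⟩
          exact hv h.symm
      have h2 : π ∈ {π | W π ∈ A} := hA
      rw [h1, if_pos h2]
      exact hasSum_ite_eq _ _
    · have h1 : (fun v => if v ∈ A ∧ W π = v then P π else 0) = fun _ => 0 := by
        funext v
        rw [if_neg]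
        rintro ⟨hv, h⟩
        exact hA (h ▸ hv)
      have h2 : ¬ π ∈ {π | W π ∈ A} := hA
      rw [h1, if_neg h2]
      exact hasSum_zero
  exact h.tsum_eq

/-! ### the limit side -/

/-- the probabilities of the words in `A` -/
theorem sum_word {Ω : Type} [MeasurableSpace Ω] (μ : Measure Ω) [IsProbabilityMeasure μ]
    {T : Type} [Countable T] (E : T → Set Ω) (hE : ∀ v, NullMeasurableSet (E v) μ)
    (hu : ∀ᵐ ω ∂μ, ∀ v v', ω ∈ E v → ω ∈ E v' → v = v') (A : Set T) :
    NullMeasurableSet (⋃ v : A, E v) μ ∧ Summable (fun v : A => μ.real (E v)) ∧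
      μ.real (⋃ v : A, E v) = ∑' v, A.indicator (fun v => μ.real (E v)) v := by
  have h0 : NullMeasurableSet (⋃ v : A, E v) μ := NullMeasurableSet.iUnion fun v => hE v
  have hd : Pairwise (Function.onFun (AEDisjoint μ) fun v : A => E v) := by
    intro v v' hne
    refine measure_mono_null ?_ hu
    rintro ω ⟨h1, h2⟩ h3
    exact hne (Subtype.ext (h3 v v' h1 h2))
  have h1 := measure_iUnion₀ hd fun v => hE v
  have hfin : ∑' v : A, μ (E v) ≠ ⊤ := by
    rw [← h1]
    exact measure_ne_top _ _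
  refine ⟨h0, ENNReal.summable_toReal hfin, ?_⟩
  rw [Measure.real, h1, ENNReal.tsum_toReal_eq fun v => measure_ne_top _ _]
  exact tsum_subtype A fun v => (μ (E v)).toReal

/-- the general theorem -/
theorem t_MAIN : S_SYSP → S_SYSS → S_WB → S_INV → S_BAD → S_FRW → S_NICE → S_DET → S_PRW →
    S_SCH → S_MAIN := by
  intro hSYSP hSYSS hWB hINV hBAD hFRW hNICE hDET hPRW hSCH
  intro P lam phi hM Ω _ μ Y hR r m H p
  classical
  have := hR.prob
  obtain ⟨yS, hyG, hyL, hyGood⟩ := hSYSS
  set S : ℕ := 2 * r + 3 with hS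
  set B : ℕ := 4 * S + 4 with hB
  let T : Type := (k : ℕ) × Wd S k
  -- the good states with the word `v`
  let GW : State → T → Prop := fun s v => GoodS s ∧ IsWord S (LabS s) (wd v.2)
  let A : Set T := {v | ∃ s, GW s v ∧ BallIso limitGraph s r H p}
  let A' : Set T := {v | ∃ s, GW s v ∧ ¬ BallIso limitGraph s r H p}
  have hwS : ∀ s v, GW s v → IsWord S (yS.Lab s) (wd v.2) := fun s v h =>
    isWord_congr (fun l _ x => (hyL s l x).symm) h.2
  have hcomp : ∀ s s' v, GW s v → GW s' v →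
      (BallIso limitGraph s r H p ↔ BallIso limitGraph s' r H p) := by
    intro s s' v h h'
    have := hWB State State ℝ ℝ yS yS r s s' v.1 (wd v.2) ((hyGood _ s).2 h.1)
      ((hyGood _ s').2 h'.1) (hwS s v h) (hwS s' v h') (Fin m) H p
    rwa [hyG] at this
  have hA : ∀ s v, GW s v → v ∈ A → BallIso limitGraph s r H p := by
    rintro s v h ⟨s', h', hb⟩
    exact (hcomp s s' v h h').2 hb
  have hA' : ∀ s v, GW s v → v ∈ A' → ¬ BallIso limitGraph s r H p := by
    rintro s v h ⟨s', h', hb⟩ hb'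
    exact hb ((hcomp s s' v h h').1 hb')
  -- the random root
  let R : Ω → State := fun ω => rootS fun i => Y i ω
  let E : T → Set Ω := fun v => {ω | IsWord S (LabS (R ω)) (wd v.2)}
  have hE : ∀ v, NullMeasurableSet (E v) μ := fun v => (hPRW P lam phi hM Ω μ Y hR S v.1 v.2).1
  have hEv : ∀ v, μ.real (E v) = limW lam phi S v.2 := fun v =>
    (hPRW P lam phi hM Ω μ Y hR S v.1 v.2).2
  have hae : ∀ᵐ ω ∂μ, GoodS (R ω) ∧ (∃ v : T, ω ∈ E v) ∧
      ∀ v v' : T, ω ∈ E v → ω ∈ E v' → v = v' := by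
    filter_upwards [hNICE lam phi Ω μ Y hR] with ω hω
    obtain ⟨-, -, hg, hfin, -, -⟩ := hDET _ hω
    have hun : ∀ l ∈ Win S, ∀ l' ∈ Win S, ∀ x, LabS (R ω) l x → LabS (R ω) l' x → l = l' := by
      intro l _ l' _ x h h'
      unfold LabS at h h'
      rw [h] at h'
      exact Option.some_injective _ h'
    obtain ⟨⟨k, w, hw⟩, huniq, -, -⟩ := hINV ℝ S (LabS (R ω)) (hfin S) hun
    exact ⟨hg, ⟨⟨k, w⟩, hw⟩, fun v v' hv hv' => huniq v.1 v'.1 v.2 v'.2 hv hv'⟩
  have hu : ∀ᵐ ω ∂μ, ∀ v v', ω ∈ E v → ω ∈ E v' → v = v' := hae.mono fun ω h => h.2.2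
  -- the sets of the states with the right ball
  have hset : {ω | BallIso limitGraph (R ω) r H p} =ᵐ[μ] ⋃ v : A, E v := by
    filter_upwards [hae] with ω hω
    obtain ⟨hg, ⟨v, hv⟩, -⟩ := hω
    refine propext ⟨fun h => ?_, fun h => ?_⟩
    · exact Set.mem_iUnion.2 ⟨⟨v, R ω, ⟨hg, hv⟩, h⟩, hv⟩
    · obtain ⟨⟨v', hv'⟩, h'⟩ := Set.mem_iUnion.1 h
      exact hA (R ω) v' ⟨hg, h'⟩ hv'
  have hset' : {ω | BallIso limitGraph (R ω) r H p}ᶜ =ᵐ[μ] ⋃ v : A', E v := by
    filter_upwards [hae] with ω hω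
    obtain ⟨hg, ⟨v, hv⟩, -⟩ := hω
    refine propext ⟨fun h => ?_, fun h => ?_⟩
    · exact Set.mem_iUnion.2 ⟨⟨v, R ω, ⟨hg, hv⟩, h⟩, hv⟩
    · obtain ⟨⟨v', hv'⟩, h'⟩ := Set.mem_iUnion.1 h
      exact hA' (R ω) v' ⟨hg, h'⟩ hv'
  obtain ⟨hn1, -, hr1⟩ := sum_word μ E hE hu A
  obtain ⟨hn2, -, hr2⟩ := sum_word μ E hE hu A'
  have hnull : NullMeasurableSet {ω | BallIso limitGraph (R ω) r H p} μ := hn1.congr hset.symm
  refine ⟨hnull, ?_⟩
  have hα : μ.real {ω | BallIso limitGraph (R ω) r H p} =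
      ∑' v, A.indicator (fun v => μ.real (E v)) v := by
    rw [← hr1]
    exact measureReal_congr hset
  have hα' : 1 - μ.real {ω | BallIso limitGraph (R ω) r H p} =
      ∑' v, A'.indicator (fun v => μ.real (E v)) v := by
    rw [← hr2, ← measureReal_congr hset']
    change 1 - (μ {ω | BallIso limitGraph (R ω) r H p}).toReal =
      (μ {ω | BallIso limitGraph (R ω) r H p}ᶜ).toReal
    rw [prob_compl_eq_one_sub₀ hnull,
      ENNReal.toReal_sub_of_le prob_le_one ENNReal.one_ne_top, ENNReal.toReal_one]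
  -- the law `q`
  have hq1 : HasSum (fun v : T => μ.real (E v)) 1 := by
    obtain ⟨-, hs, hr⟩ := sum_word μ E hE hu Set.univ
    rw [Set.indicator_univ] at hr
    have h1 : μ.real (⋃ v : (Set.univ : Set T), E v) = 1 := by
      have h2 : (⋃ v : (Set.univ : Set T), E v) =ᵐ[μ] Set.univ := by
        filter_upwards [hae] with ω hω
        obtain ⟨-, ⟨v, hv⟩, -⟩ := hω
        exact propext ⟨fun _ => trivial, fun _ => Set.mem_iUnion.2 ⟨⟨v, trivial⟩, hv⟩⟩
      rw [measureReal_congr h2]
      simp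
    rw [h1] at hr
    rw [hr]
    refine Summable.hasSum ?_
    exact (Equiv.Set.univ T).summable_iff.1 hs
  -- the words of permutations
  have hwP : ∀ (n : ℕ) (π : Equiv.Perm (Fin n)), ∃ v : T, IsWord S (LabT S π) (wd v.2) := by
    intro n π
    obtain ⟨⟨k, w, hw⟩, -⟩ := hINV ℤ S (LabT S π) (labT_finite S π) (labT_unique S π)
    exact ⟨⟨k, w⟩, hw⟩
  choose W hW using hwP
  have hWu : ∀ (n : ℕ) (v : T) (π : Equiv.Perm (Fin n)),
      π ∈ {π | IsWord S (LabT S π) (wd v.2)} ↔ W n π = v := by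
    intro n v π
    obtain ⟨-, huniq, -⟩ := hINV ℤ S (LabT S π) (labT_finite S π) (labT_unique S π)
    refine ⟨fun h => huniq (W n π).1 v.1 (W n π).2 v.2 (hW n π) h, fun h => ?_⟩
    subst h
    exact hW n π
  let pn : ℕ → T → ℝ := fun n v => pr (P n) {π | IsWord S (LabT S π) (wd v.2)}
  have hsum : ∀ n, HasSum (pn n) 1 := by
    intro n
    obtain ⟨-, h1, h2, -⟩ := hFRW P lam phi hM S 0 (fun i => i.elim0)
    have h3 := (h2 n).hasSum
    rw [h1 n] at h3
    exact h3
  have hlim : ∀ v, Tendsto (fun n => pn n v) atTop (𝓝 (μ.real (E v))) := by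
    intro v
    rw [hEv v]
    exact (hFRW P lam phi hM S v.1 v.2).1
  have hsch := hSCH T pn (fun v => μ.real (E v)) (fun n v => pr_nonneg _ (hM.nonneg n) _)
    (fun v => measureReal_nonneg) hsum hq1 hlim
  have hlimA := hsch A
  have hlimA' := hsch A'
  rw [← hα] at hlimA
  rw [← hα'] at hlimA'
  have hbad := hBAD P lam phi hM S B le_rfl
  -- comparison
  have hgood : ∀ n : ℕ, 0 < n → ∀ π : Equiv.Perm (Fin n), GoodP n B S π → ∀ s,
      GW s (W n π) → (BallIso (forest n) π r H p ↔ BallIso limitGraph s r H p) := by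
    intro n hn π hπ s hs
    obtain ⟨yP, hPG, hPL, hPgood⟩ := hSYSP n B hn
    have hw : IsWord S (yP.Lab π) (wd (W n π).2) := by
      refine isWord_congr (fun l hl x => ?_) (hW n π)
      rw [hPL]
      refine ⟨fun h => h.1, fun h => ⟨h, ?_⟩⟩
      have := (hπ.2.2 l hl x h).1
      push_cast [hB] at this
      omega
    have := hWB (Equiv.Perm (Fin n)) State ℤ ℝ yP yS r π s (W n π).1 (wd (W n π).2)
      ((hPgood _ π).2 hπ) ((hyGood _ s).2 hs.1) hw (hwS s _ hs) (Fin m) H p
    rwa [hyG, hPG] at this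
  have hlow : ∀ n : ℕ, 0 < n → ∑' v, A.indicator (pn n) v -
      pr (P n) {π | ¬ GoodP n B S π} ≤ pr (P n) {π | BallIso (forest n) π r H p} := by
    intro n hn
    rw [tsum_word (P n) _ (W n) (hWu n) A, sub_le_iff_le_add]
    unfold pr
    rw [← Finset.sum_add_distrib]
    refine Finset.sum_le_sum fun π _ => ?_
    have h0 := hM.nonneg n π
    simp only [Set.mem_ofPred_eq]
    by_cases h1 : W n π ∈ A
    · by_cases h2 : GoodP n B S π
      · have h3 : BallIso (forest n) π r H p := by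
          obtain ⟨s, hs, hb⟩ := h1
          exact (hgood n hn π h2 s hs).2 hb
        rw [if_pos h1, if_pos h3, if_neg (not_not.2 h2), add_zero]
      · rw [if_pos h1, if_pos h2]
        split_ifs <;> linarith
    · rw [if_neg h1]
      split_ifs <;> linarith
  have hupp : ∀ n : ℕ, 0 < n → pr (P n) {π | BallIso (forest n) π r H p} ≤
      1 - ∑' v, A'.indicator (pn n) v + pr (P n) {π | ¬ GoodP n B S π} := by
    intro n hn
    rw [tsum_word (P n) _ (W n) (hWu n) A', ← hM.sum n]
    unfold pr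
    rw [← Finset.sum_sub_distrib, ← Finset.sum_add_distrib]
    refine Finset.sum_le_sum fun π _ => ?_
    have h0 := hM.nonneg n π
    simp only [Set.mem_ofPred_eq]
    by_cases h1 : W n π ∈ A'
    · by_cases h2 : GoodP n B S π
      · have h3 : ¬ BallIso (forest n) π r H p := by
          obtain ⟨s, hs, hb⟩ := h1
          exact fun h => hb ((hgood n hn π h2 s hs).1 h)
        rw [if_pos h1, if_neg h3, if_neg (not_not.2 h2)]
        linarith
      · rw [if_pos h1, if_pos h2]
        split_ifs <;> linarith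
    · rw [if_neg h1]
      split_ifs <;> linarith
  have hL : Tendsto (fun n => ∑' v, A.indicator (pn n) v - pr (P n) {π | ¬ GoodP n B S π}) atTop
      (𝓝 (μ.real {ω | BallIso limitGraph (R ω) r H p})) := by
    have := hlimA.sub hbad
    rwa [sub_zero] at this
  have hU : Tendsto (fun n => 1 - ∑' v, A'.indicator (pn n) v +
      pr (P n) {π | ¬ GoodP n B S π}) atTop
      (𝓝 (μ.real {ω | BallIso limitGraph (R ω) r H p})) := by
    have := (hlimA'.const_sub 1).add hbad
    rwa [add_zero, sub_sub_cancel] at this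
  refine tendsto_of_tendsto_of_tendsto_of_le_of_le' hL hU ?_ ?_
  · filter_upwards [eventually_gt_atTop 0] with n hn using hlow n hn
  · filter_upwards [eventually_gt_atTop 0] with n hn using hupp n hn

end Pool.Agent.K3h30.FF
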